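import Pool.Agent.H110R3.UF.StmtsB

/-! B1 of the project H110-UFB: multiplicativity of the insertions. -/

open CategoryTheory MonoidalCategory CategoryTheory.Limits

universe v u

namespace Pool.Agent.H741R4.UF

open Pool.Agent.H110R3.UF

theorem b1_core {D : Type u} [Category.{v} D] [MonoidalCategory D] (X Y Y' W W' : D)
    (R : 𝟙_ D ⟶ Y ⊗ Y') (r : 𝟙_ D ⟶ W ⊗ W') (s : X ⊗ Y ⟶ Y ⊗ X) (t : X ⊗ W ⟶ W ⊗ X) :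
    ((ρ_ X).inv ≫ (X ◁ (R ≫ (((ρ_ Y).inv ≫ (Y ◁ r) ≫ (α_ Y W W').inv) ▷ Y') ≫
      (α_ (Y ⊗ W) W' Y').hom)) ≫ (α_ X (Y ⊗ W) (W' ⊗ Y')).inv) ≫
      (((α_ X Y W).inv ≫ (s ▷ W) ≫ (α_ Y X W).hom ≫ (Y ◁ t) ≫ (α_ Y W X).inv) ▷ (W' ⊗ Y')) =
    (((ρ_ X).inv ≫ (X ◁ R) ≫ (α_ X Y Y').inv) ≫ (s ▷ Y')) ≫
      ((Y ◁ (((ρ_ X).inv ≫ (X ◁ r) ≫ (α_ X W W').inv) ≫ (t ▷ W'))) ▷ Y') ≫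
      ((((α_ Y (W ⊗ X) W').inv ≫ ((α_ Y W X).inv ▷ W')) ▷ Y') ≫
        (α_ ((Y ⊗ W) ⊗ X) W' Y').hom) := by
  calc
    _ = 𝟙 _ ⊗≫ (X ◁ R) ⊗≫ (((X ⊗ Y) ◁ r ≫ s ▷ (W ⊗ W')) ▷ Y') ⊗≫
        ((Y ◁ t) ▷ (W' ⊗ Y')) ⊗≫ 𝟙 (((Y ⊗ W) ⊗ X) ⊗ (W' ⊗ Y')) := by monoidal
    _ = 𝟙 _ ⊗≫ (X ◁ R) ⊗≫ ((s ▷ 𝟙_ D ≫ (Y ⊗ X) ◁ r) ▷ Y') ⊗≫
        ((Y ◁ t) ▷ (W' ⊗ Y')) ⊗≫ 𝟙 (((Y ⊗ W) ⊗ X) ⊗ (W' ⊗ Y')) := by rw [whisker_exchange]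
    _ = _ := by monoidal

theorem b1 : TaskB1.{v, u} := by
  intro D _ _ X H Y Y' W W' R r
  have h := b1_core X Y Y' W W' R r (H.σ Y).hom (H.σ W).hom
  unfold insv nest ins reas
  rw [H.hex]
  exact h

end Pool.Agent.H741R4.UF
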