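import Pool.Agent.H741R4.UF.B1
import Pool.Agent.H741R4.UF.B4

/-! B4 of the project H110-UFB, in the exact form of the task. -/

universe v u

namespace Pool.Agent.H741R4.UF

open Pool.Agent.H110R3.UF

theorem b4 : TaskB4.{v, u} := b4_aux b1

end Pool.Agent.H741R4.UF
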